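import Mathlib
import Pool.Agent.Helper98.Lang.Defs
import Pool.Agent.Helper92.Avg.Series

/-!
# MP_c307ca_nt, packet P19: small denominators (helper59)
-/

set_option autoImplicit false

namespace Pool.Agent.Helper59.Lang

open Finset Pool.Agent.Helper98.Lang Pool.Agent.Helper92.Avg

lemma phi_eq (ε : ℝ) {q : ℕ} (hq : 2 ≤ q) :
    phi ε q = 1 / ((q : ℝ) * Real.log (q : ℝ) ^ (1 + ε)) := by
  unfold phi
  rw [max_eq_left hq]

lemma l_pos (ε : ℝ) {q : ℕ} (hq : 2 ≤ q) : 0 < (q : ℝ) * Real.log (q : ℝ) ^ (1 + ε) := by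
  have h1 : (2 : ℝ) ≤ q := by exact_mod_cast hq
  have h2 : 0 < Real.log (q : ℝ) := Real.log_pos (by linarith)
  have h3 := Real.rpow_pos_of_pos h2 (1 + ε)
  positivity

lemma l_le {ε : ℝ} (hε : 0 < ε) {q : ℕ} (hq : 2 ≤ q) :
    (q : ℝ) * Real.log (q : ℝ) ^ (1 + ε) ≤ (1 + ε) ^ (1 + ε) * (q : ℝ) ^ 2 := by
  have h1 : (2 : ℝ) ≤ q := by exact_mod_cast hq
  have h2 : 0 < Real.log (q : ℝ) := Real.log_pos (by linarith)
  have h3 : Real.log (q : ℝ) ≤ (q : ℝ) ^ (1 / (1 + ε)) / (1 / (1 + ε)) :=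
    Real.log_le_rpow_div (by linarith) (by positivity)
  have h4 : (q : ℝ) ^ (1 / (1 + ε)) / (1 / (1 + ε)) = (1 + ε) * (q : ℝ) ^ (1 / (1 + ε)) := by
    field_simp
  rw [h4] at h3
  have h5 : Real.log (q : ℝ) ^ (1 + ε) ≤ (1 + ε) ^ (1 + ε) * q := by
    calc Real.log (q : ℝ) ^ (1 + ε) ≤ ((1 + ε) * (q : ℝ) ^ (1 / (1 + ε))) ^ (1 + ε) :=
          Real.rpow_le_rpow h2.le h3 (by linarith)
      _ = (1 + ε) ^ (1 + ε) * ((q : ℝ) ^ (1 / (1 + ε))) ^ (1 + ε) :=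
          Real.mul_rpow (by linarith) (by positivity)
      _ = (1 + ε) ^ (1 + ε) * q := by
          rw [← Real.rpow_mul (by linarith), one_div_mul_cancel (by linarith), Real.rpow_one]
  calc (q : ℝ) * Real.log (q : ℝ) ^ (1 + ε) ≤ q * ((1 + ε) ^ (1 + ε) * q) :=
        mul_le_mul_of_nonneg_left h5 (by linarith)
    _ = (1 + ε) ^ (1 + ε) * (q : ℝ) ^ 2 := by ring

open Classical in
/-- The count for a fixed denominator. -/
lemma count_le (hF : GFej) {ε : ℝ} (hε : 0 < ε) {ξ : ℝ} (hξ : RothP ξ) :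
    ∃ C1 : ℝ, 0 < C1 ∧ ∀ c : ℝ, 0 < c → ∀ N q : ℕ, 2 ≤ q →
    (((Icc 1 N).filter (fun a : ℕ =>
        nd ((a : ℝ) * q * ξ) ≤ c / (q * Real.log q ^ (1 + ε)))).card : ℝ)
      ≤ 12 * c * N * phi ε q +
        C1 * ((1 + ε) ^ (1 + ε) * (q : ℝ) ^ 2 / (2 * c)) ^ (1 / 4 : ℝ) *
          (q : ℝ) ^ (1 + 1 / 4 : ℝ) := by
  obtain ⟨C1, hC1, hG⟩ := hF ξ hξ (1 / 4) (by norm_num)
  refine ⟨C1, hC1, ?_⟩
  intro c hc N q hq
  have hl := l_pos ε hq
  have hlK := l_le hε hq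
  rw [phi_eq ε hq]
  set l : ℝ := (q : ℝ) * Real.log (q : ℝ) ^ (1 + ε) with hldef
  set K : ℝ := (1 + ε) ^ (1 + ε) with hK
  have hK0 : 0 < K := Real.rpow_pos_of_pos (by linarith) _
  have hq0 : (0 : ℝ) < q := by
    have : (2 : ℝ) ≤ q := by exact_mod_cast hq
    linarith
  have hN0 : (0 : ℝ) ≤ N := by positivity
  rcases lt_or_ge l (2 * c) with h | h
  · -- trivial bound
    have h1 : (((Icc 1 N).filter (fun a : ℕ => nd ((a : ℝ) * q * ξ) ≤ c / l)).card : ℝ) ≤ N := by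
      have h2 := Finset.card_filter_le (Icc 1 N) (fun a : ℕ => nd ((a : ℝ) * q * ξ) ≤ c / l)
      rw [Nat.card_Icc, Nat.add_sub_cancel] at h2
      exact_mod_cast h2
    have h3 : (N : ℝ) ≤ 12 * c * N * (1 / l) := by
      have h4 : (1 : ℝ) ≤ 12 * c * (1 / l) := by
        rw [mul_one_div, le_div_iff₀ hl]; linarith
      calc (N : ℝ) = N * 1 := (mul_one _).symm
        _ ≤ N * (12 * c * (1 / l)) := mul_le_mul_of_nonneg_left h4 hN0
        _ = 12 * c * N * (1 / l) := by ring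
    have h5 : 0 ≤ C1 * (K * (q : ℝ) ^ 2 / (2 * c)) ^ (1 / 4 : ℝ) * (q : ℝ) ^ (1 + 1 / 4 : ℝ) := by
      positivity
    linarith
  · have hx1 : 1 ≤ l / (2 * c) := by rw [le_div_iff₀ (by positivity)]; linarith
    set H : ℕ := ⌊l / (2 * c)⌋₊ with hH
    have hH1 : 1 ≤ H := Nat.le_floor (by simpa using hx1)
    have hHr : (1 : ℝ) ≤ H := by exact_mod_cast hH1
    have hHle : (H : ℝ) ≤ l / (2 * c) := Nat.floor_le (by positivity)
    have hHge : l / (4 * c) ≤ H := by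
      have h1 : l / (2 * c) < H + 1 := Nat.lt_floor_add_one _
      have h2 : l / (4 * c) = l / (2 * c) / 2 := by field_simp; ring
      rw [h2]; linarith
    obtain ⟨G, c0, hG0, -, hG1, -, hc0, hGs⟩ := hG H hH1
    have hs := hGs q N (by omega)
    have h1 : (((Icc 1 N).filter (fun a : ℕ => nd ((a : ℝ) * q * ξ) ≤ c / l)).card : ℝ)
        ≤ ∑ n ∈ Icc 1 N, G ((n : ℝ) * (q * ξ)) := by
      rw [Finset.card_eq_sum_ones, Nat.cast_sum]
      refine (Finset.sum_le_sum (fun a ha => ?_)).trans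
        (Finset.sum_le_sum_of_subset_of_nonneg (Finset.filter_subset _ _)
          (fun a _ _ => hG0 ((a : ℝ) * (q * ξ))))
      rw [Nat.cast_one]
      apply hG1
      rw [← mul_assoc]
      refine (Finset.mem_filter.1 ha).2.trans ?_
      rw [div_le_div_iff₀ hl (by positivity)]
      have h3 : (H : ℝ) * (2 * c) ≤ l := by
        rwa [le_div_iff₀ (by positivity)] at hHle
      linarith
    have h2 : ∑ n ∈ Icc 1 N, G ((n : ℝ) * (q * ξ)) ≤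
        c0 * N + C1 * (H : ℝ) ^ (1 / 4 : ℝ) * (q : ℝ) ^ (1 + 1 / 4 : ℝ) := by
      have := (abs_le.1 hs).2
      linarith
    have h3 : c0 * N ≤ 12 * c * N * (1 / l) := by
      have h4 : c0 ≤ 12 * c * (1 / l) := by
        refine hc0.trans ?_
        rw [mul_one_div, div_le_div_iff₀ (by linarith) hl]
        rw [div_le_iff₀ (by positivity)] at hHge
        linarith
      calc c0 * N ≤ 12 * c * (1 / l) * N := mul_le_mul_of_nonneg_right h4 hN0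
        _ = 12 * c * N * (1 / l) := by ring
    have h4 : (H : ℝ) ^ (1 / 4 : ℝ) ≤ (K * (q : ℝ) ^ 2 / (2 * c)) ^ (1 / 4 : ℝ) := by
      apply Real.rpow_le_rpow (by linarith) _ (by norm_num)
      refine hHle.trans ?_
      exact div_le_div_of_nonneg_right hlK (by positivity)
    have h5 : C1 * (H : ℝ) ^ (1 / 4 : ℝ) * (q : ℝ) ^ (1 + 1 / 4 : ℝ) ≤
        C1 * (K * (q : ℝ) ^ 2 / (2 * c)) ^ (1 / 4 : ℝ) * (q : ℝ) ^ (1 + 1 / 4 : ℝ) := by
      apply mul_le_mul_of_nonneg_right _ (by positivity)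
      exact mul_le_mul_of_nonneg_left h4 hC1.le
    linarith

open Classical in
theorem small : GFej → GSmall := by
  intro hF ε hε
  have hZ := Zsum_nonneg ε
  refine ⟨12 * Zsum ε + 1, by linarith, ?_⟩
  intro ξ hξ c hc
  obtain ⟨C1, hC1, hcount⟩ := count_le hF hε hξ
  set K : ℝ := (1 + ε) ^ (1 + ε) with hK
  have hK0 : 0 < K := Real.rpow_pos_of_pos (by linarith) _
  set C2 : ℝ := C1 * (K / (2 * c)) ^ (1 / 4 : ℝ) with hC2
  have hC20 : 0 < C2 := by positivity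
  -- the choice of N0
  have hlim : Filter.Tendsto (fun N : ℕ => (N : ℝ) ^ (5 / 16 : ℝ)) Filter.atTop Filter.atTop :=
    (tendsto_rpow_atTop (by norm_num)).comp tendsto_natCast_atTop_atTop
  obtain ⟨N0, hN0⟩ := Filter.eventually_atTop.1 (hlim.eventually_ge_atTop (C2 / c))
  refine ⟨max N0 1, fun N hN => ?_⟩
  have hN1 : 1 ≤ N := (le_max_right _ _).trans hN
  have hNr : (1 : ℝ) ≤ N := by exact_mod_cast hN1
  have hNpos : (0 : ℝ) < N := by linarith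
  set x : ℝ := (N : ℝ) ^ ((1 : ℝ) / 4) with hx
  have hx0 : 0 < x := Real.rpow_pos_of_pos hNpos _
  set Q : ℕ := ⌊x⌋₊ with hQ
  have hQx : (Q : ℝ) ≤ x := Nat.floor_le hx0.le
  let S : ℕ → Finset ℕ := fun q => (Icc 1 N).filter (fun a : ℕ =>
        nd ((a : ℝ) * q * ξ) ≤ c / (q * Real.log q ^ (1 + ε)))
  have hsub : {a : ℕ | 1 ≤ a ∧ a ≤ N ∧ ∃ q : ℕ, 2 ≤ q ∧ (q : ℝ) ≤ x ∧
      nd ((a : ℝ) * q * ξ) ≤ c / (q * Real.log q ^ (1 + ε))} ⊆ (((Icc 2 Q).biUnion S : Finset ℕ) : Set ℕ) := by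
    rintro a ⟨h1, h2, q, h3, h4, h5⟩
    rw [Finset.mem_coe, Finset.mem_biUnion]
    refine ⟨q, Finset.mem_Icc.2 ⟨h3, Nat.le_floor h4⟩, ?_⟩
    exact Finset.mem_filter.2 ⟨Finset.mem_Icc.2 ⟨h1, h2⟩, h5⟩
  have hcard : ({a : ℕ | 1 ≤ a ∧ a ≤ N ∧ ∃ q : ℕ, 2 ≤ q ∧ (q : ℝ) ≤ x ∧
      nd ((a : ℝ) * q * ξ) ≤ c / (q * Real.log q ^ (1 + ε))}.ncard : ℝ) ≤
      ∑ q ∈ Icc 2 Q, ((S q).card : ℝ) := by
    have h1 := Set.ncard_le_ncard hsub (Finset.finite_toSet _)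
    rw [Set.ncard_coe_finset] at h1
    have h2 := h1.trans (Finset.card_biUnion_le (s := Icc 2 Q) (t := S))
    exact_mod_cast h2
  refine hcard.trans ?_
  have hterm : ∀ q ∈ Icc 2 Q, ((S q).card : ℝ) ≤ 12 * c * N * phi ε q +
      C2 * x ^ (1 / 2 : ℝ) * x ^ (1 + 1 / 4 : ℝ) := by
    intro q hq
    rw [Finset.mem_Icc] at hq
    have h1 := hcount c hc N q hq.1
    refine h1.trans ?_
    have hqx : (q : ℝ) ≤ x := by
      have : (q : ℝ) ≤ Q := by exact_mod_cast hq.2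
      linarith
    have hq0 : (0 : ℝ) ≤ q := by positivity
    have h2 : (K * (q : ℝ) ^ 2 / (2 * c)) ^ (1 / 4 : ℝ) ≤ (K / (2 * c)) ^ (1 / 4 : ℝ) * x ^ (1 / 2 : ℝ) := by
      have h3 : (K * (q : ℝ) ^ 2 / (2 * c)) ^ (1 / 4 : ℝ) ≤ (K / (2 * c) * x ^ 2) ^ (1 / 4 : ℝ) := by
        apply Real.rpow_le_rpow (by positivity) _ (by norm_num)
        rw [mul_div_right_comm]
        exact mul_le_mul_of_nonneg_left (pow_le_pow_left₀ hq0 hqx 2) (by positivity)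
      refine h3.trans_eq ?_
      rw [Real.mul_rpow (by positivity) (by positivity), ← Real.rpow_natCast x 2,
        ← Real.rpow_mul hx0.le]
      norm_num
    have h4 : (q : ℝ) ^ (1 + 1 / 4 : ℝ) ≤ x ^ (1 + 1 / 4 : ℝ) :=
      Real.rpow_le_rpow hq0 hqx (by norm_num)
    have h5 : C1 * (K * (q : ℝ) ^ 2 / (2 * c)) ^ (1 / 4 : ℝ) ≤ C2 * x ^ (1 / 2 : ℝ) := by
      rw [hC2, mul_assoc]
      exact mul_le_mul_of_nonneg_left h2 hC1.le
    have h6 : C1 * (K * (q : ℝ) ^ 2 / (2 * c)) ^ (1 / 4 : ℝ) * (q : ℝ) ^ (1 + 1 / 4 : ℝ) ≤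
        C2 * x ^ (1 / 2 : ℝ) * x ^ (1 + 1 / 4 : ℝ) :=
      mul_le_mul h5 h4 (by positivity) (by positivity)
    linarith
  refine (Finset.sum_le_sum hterm).trans ?_
  rw [Finset.sum_add_distrib, ← Finset.mul_sum, Finset.sum_const, nsmul_eq_mul]
  have h1 : ∑ q ∈ Icc 2 Q, phi ε q ≤ Zsum ε :=
    (summable_phi hε).sum_le_tsum _ (fun q _ => (phi_pos ε q).le)
  have h2 : 12 * c * N * ∑ q ∈ Icc 2 Q, phi ε q ≤ 12 * c * N * Zsum ε :=
    mul_le_mul_of_nonneg_left h1 (by positivity)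
  have h3 : ((Icc 2 Q).card : ℝ) ≤ x := by
    rw [Nat.card_Icc]
    have : ((Q + 1 - 2 : ℕ) : ℝ) ≤ Q := by
      have : Q + 1 - 2 ≤ Q := by omega
      exact_mod_cast this
    linarith
  have h4 : ((Icc 2 Q).card : ℝ) * (C2 * x ^ (1 / 2 : ℝ) * x ^ (1 + 1 / 4 : ℝ)) ≤ c * N := by
    have h5 : ((Icc 2 Q).card : ℝ) * (C2 * x ^ (1 / 2 : ℝ) * x ^ (1 + 1 / 4 : ℝ)) ≤
        x * (C2 * x ^ (1 / 2 : ℝ) * x ^ (1 + 1 / 4 : ℝ)) :=
      mul_le_mul_of_nonneg_right h3 (by positivity)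
    refine h5.trans ?_
    have h6 : x * (C2 * x ^ (1 / 2 : ℝ) * x ^ (1 + 1 / 4 : ℝ)) = C2 * (N : ℝ) ^ (11 / 16 : ℝ) := by
      have h7 : x * (x ^ (1 / 2 : ℝ) * x ^ (1 + 1 / 4 : ℝ)) = x ^ (11 / 4 : ℝ) := by
        rw [← Real.rpow_add hx0]
        nth_rewrite 1 [← Real.rpow_one x]
        rw [← Real.rpow_add hx0]
        norm_num
      calc x * (C2 * x ^ (1 / 2 : ℝ) * x ^ (1 + 1 / 4 : ℝ))
          = C2 * (x * (x ^ (1 / 2 : ℝ) * x ^ (1 + 1 / 4 : ℝ))) := by ring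
        _ = C2 * x ^ (11 / 4 : ℝ) := by rw [h7]
        _ = C2 * (N : ℝ) ^ (11 / 16 : ℝ) := by
          rw [hx, ← Real.rpow_mul hNpos.le]; norm_num
    rw [h6]
    have h8 : C2 ≤ c * (N : ℝ) ^ (5 / 16 : ℝ) := by
      have := hN0 N ((le_max_left _ _).trans hN)
      rw [div_le_iff₀ hc] at this
      linarith
    have h9 : (N : ℝ) ^ (5 / 16 : ℝ) * (N : ℝ) ^ (11 / 16 : ℝ) = N := by
      rw [← Real.rpow_add hNpos]; norm_num
    calc C2 * (N : ℝ) ^ (11 / 16 : ℝ) ≤ c * (N : ℝ) ^ (5 / 16 : ℝ) * (N : ℝ) ^ (11 / 16 : ℝ) :=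
          mul_le_mul_of_nonneg_right h8 (by positivity)
      _ = c * N := by rw [mul_assoc, h9]
  have h10 : (12 * Zsum ε + 1) * c * N = 12 * c * N * Zsum ε + c * N := by ring
  rw [h10]
  exact add_le_add h2 h4

end Pool.Agent.Helper59.Lang

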